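import Pool.Agent.Lib.MP_7252b7_al_h9.MinFinal

/-!
# Covering subgroups in all finite groups: the smallest prime of a hereditary local formation
-/

set_option autoImplicit false

namespace Pool.Agent.Results.MP_7252b7_al.MinPrime

open Pool.Agent.CoveringSubgroups Pool.Agent.CoveringSubgroups.H9

/-- Let `F` be a hereditary local formation of finite soluble groups with `π(F)` finite, let `p` be
the smallest prime in `π(F)`, and suppose that every finite group has an `F`-covering subgroup.
Then either `F` is closed under extensions by normal `p`-subgroups, or `F(q)` is not contained in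
`F(p)` for some `q ∈ π(F)` and `F(p)` is contained in `F(s)` for some `s ∈ π(F)` other than `p`;
when `π(F) = {p, s}`, this makes `F` closed under extensions by normal `s`-subgroups. -/
theorem result (F : GroupClass) (hF : IsLocalFormation F)
    (hher : ∀ (G : Type) [Group G] (H : Subgroup G), F G → F H)
    (hsol : ∀ (G : Type) [Group G], F G → Group.IsSolvable G)
    (hcov : ∀ (G : Type) [Group G] [Finite G], HasCovering F G)
    (hfin : {q | InPi F q}.Finite) (p : ℕ) (hp : InPi F p) (hmin : ∀ q, InPi F q → p ≤ q) :
    ClosedUnder F p ∨
      (∃ q, InPi F q ∧ ¬ CanonLE F q p) ∧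
        ∃ s : ℕ, InPi F s ∧ s ≠ p ∧ CanonLE F p s ∧
          ((∀ r, InPi F r → r = p ∨ r = s) → ClosedUnder F s) := by
  obtain ⟨hF1, f, hf⟩ := hF
  exact min_dichotomy hF1 hf hher hsol hcov hfin hp hmin

end Pool.Agent.Results.MP_7252b7_al.MinPrime
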