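import Pool.Agent.Lib.MP_7252b7_al_h6.ST

/-!
# Covering subgroups in all finite groups: Sylow tower formations on the primes 2, 3, r
-/

set_option autoImplicit false

namespace Pool.Agent.Results.MP_7252b7_al.SylowTower

open Pool.Agent.CoveringSubgroups Pool.Agent.CoveringSubgroups.H9 Pool.Agent.CoveringSubgroups.H6

/-- Let `F` be a hereditary local formation of finite soluble groups with
`{2, 3} ⊆ π(F) ⊆ {2, 3, r}`, where `r ≥ 5` is a prime, such that every nontrivial group in `F` has a
nontrivial normal Sylow subgroup.  Then every finite group has an `F`-covering subgroup if and only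
if either `F` is closed under extensions by normal `2`-subgroups and every finite group of odd order
has an `F`-covering subgroup, or `F` is closed under extensions by normal `3`-subgroups and every
finite group of order prime to `3` has an `F`-covering subgroup, or `F` is one of the two classes
`S_r S_2 S_3`, `S_r S_3 S_2`. -/
theorem result (F : GroupClass) (hF : IsLocalFormation F)
    (hher : ∀ (G : Type) [Group G] (H : Subgroup G), F G → F H)
    (hsol : ∀ (G : Type) [Group G], F G → Group.IsSolvable G)
    (hsyl : ∀ (G : Type) [Group G], F G → Nontrivial G →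
      ∃ q : ℕ, q.Prime ∧ ∃ P : Sylow q G, P.toSubgroup.Normal ∧ P.toSubgroup ≠ ⊥)
    (r : ℕ) (hr : r.Prime) (h5 : 5 ≤ r) (h2 : InPi F 2) (h3 : InPi F 3)
    (hπ : ∀ q, InPi F q → q = 2 ∨ q = 3 ∨ q = r) :
    (∀ (G : Type) [Group G] [Finite G], HasCovering F G) ↔
      (ClosedUnder F 2 ∧
        ∀ (G : Type) [Group G] [Finite G], ¬ 2 ∣ Nat.card G → HasCovering F G) ∨
      (ClosedUnder F 3 ∧
        ∀ (G : Type) [Group G] [Finite G], ¬ 3 ∣ Nat.card G → HasCovering F G) ∨
      (∀ (G : Type) [Group G], F G ↔ SSS r 2 3 G) ∨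
      (∀ (G : Type) [Group G], F G ↔ SSS r 3 2 G) := by
  obtain ⟨hF1, f, hf⟩ := hF
  exact sylow_three hF1 hf hher hsol hsyl hr h5 h2 h3 hπ

end Pool.Agent.Results.MP_7252b7_al.SylowTower
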