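import Pool.Agent.Lib.MP_7252b7_al_h61.Main

/-!
# Covering subgroups in all finite groups: formations of groups with a normal Sylow 2-subgroup
-/

set_option autoImplicit false

namespace Pool.Agent.Results.MP_7252b7_al.TwoClosed

open Pool.Agent.CoveringSubgroups

/-- Let `F` be a local formation of finite soluble groups, all with a normal Sylow 2-subgroup, and
containing a group of even order.  Every finite group has an `F`-covering subgroup if and only if
`F` is closed under extensions of 2-groups by groups of `F` and every finite group of odd order has
an `F`-covering subgroup. -/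
theorem result (F : GroupClass) (hF : IsLocalFormation F)
    (hsol : ∀ (G : Type) [Group G], F G → Group.IsSolvable G)
    (hcl : ∀ (G : Type) [Group G], F G → ∀ P : Sylow 2 G, P.toSubgroup.Normal)
    (heven : ∃ (G : Type) (_ : Group G), F G ∧ 2 ∣ Nat.card G) :
    (∀ (G : Type) [Group G] [Finite G], HasCovering F G) ↔
      (∀ (G : Type) [Group G] [Finite G] (N : Subgroup G) [N.Normal], IsPGroup 2 N →
        F (G ⧸ N) → F G) ∧
      (∀ (G : Type) [Group G] [Finite G], Odd (Nat.card G) → HasCovering F G) :=
  covering_iff hF hsol hcl heven

end Pool.Agent.Results.MP_7252b7_al.TwoClosed
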