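import Pool.Agent.Lib.MP_7252b7_al_h6.TT

/-!
# Covering subgroups in all finite groups: the primes 2 and 3 of a hereditary local formation
-/

set_option autoImplicit false

namespace Pool.Agent.Results.MP_7252b7_al.TwoThree

open Pool.Agent.CoveringSubgroups Pool.Agent.CoveringSubgroups.H9 Pool.Agent.CoveringSubgroups.H6

/-- Let `F` be a hereditary local formation of finite soluble groups with `π(F)` finite and
`2, 3 ∈ π(F)`, and suppose that every finite group has an `F`-covering subgroup.  Then one of `F(2)`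
and `F(3)` contains the other, and either `F` is closed under extensions by normal `2`-subgroups, or
`F` is closed under extensions by normal `3`-subgroups, or `F(2) = F(3)`, or `F(2)` and `F(3)` are
contained in `F(s)` for some `s ≥ 5` in `π(F)`; when `π(F) = {2, 3, s}`, this makes `F` closed under
extensions by normal `s`-subgroups. -/
theorem result (F : GroupClass) (hF : IsLocalFormation F)
    (hher : ∀ (G : Type) [Group G] (H : Subgroup G), F G → F H)
    (hsol : ∀ (G : Type) [Group G], F G → Group.IsSolvable G)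
    (hcov : ∀ (G : Type) [Group G] [Finite G], HasCovering F G)
    (hfin : {q | InPi F q}.Finite) (h2 : InPi F 2) (h3 : InPi F 3) :
    (CanonLE F 2 3 ∨ CanonLE F 3 2) ∧
      (ClosedUnder F 2 ∨ ClosedUnder F 3 ∨ (CanonLE F 2 3 ∧ CanonLE F 3 2) ∨
        ∃ s : ℕ, InPi F s ∧ 5 ≤ s ∧ CanonLE F 2 s ∧ CanonLE F 3 s ∧
          ((∀ r, InPi F r → r = 2 ∨ r = 3 ∨ r = s) → ClosedUnder F s)) := by
  obtain ⟨hF1, f, hf⟩ := hF
  refine ⟨?_, ?_⟩
  · rcases step_al hF1 hf hher ∅ (by simp) (fun G _ _ _ => hcov G) hfin h2 h3 with h | h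
    · exact Or.inl fun Y _ hY => h Y hY (by simp)
    · exact Or.inr fun Y _ hY => h Y hY (by simp)
  · rcases two_three hF1 hf hher hsol hcov hfin h2 h3 with h | h | h | ⟨s, hs, h5, h6, h7⟩
    · exact Or.inl h
    · exact Or.inr (Or.inl h)
    · exact Or.inr (Or.inr (Or.inl h))
    · refine Or.inr (Or.inr (Or.inr ⟨s, hs, h5, h6, h7, fun hπ => ?_⟩))
      refine closed_of_le hF1 hf hher hsol hs fun q hq => ?_
      rcases hπ q hq with rfl | rfl | rfl
      · exact h6
      · exact h7
      · exact fun Y _ hY => hY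

end Pool.Agent.Results.MP_7252b7_al.TwoThree
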